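import Mathlib

set_option autoImplicit false

namespace Pool.Agent.Results.MP_e4e265_co.RowThree

/-- The matrix `q`: `q i j` is the least natural number outside
`{q i k + q l j - q l k : l < i, k < j}` (differences computed in the integers). -/
noncomputable def q (i j : ℕ) : ℕ :=
  sInf {n : ℕ | ∀ l : ℕ, ∀ _hl : l < i, ∀ k : ℕ, ∀ _hk : k < j,
    (n : ℤ) ≠ (q i k : ℤ) + (q l j : ℤ) - (q l k : ℤ)}
termination_by (i, j)
decreasing_by
  all_goals simp_wf
  all_goals first
    | exact Prod.Lex.right _ _hk
    | exact Prod.Lex.left _ _ _hl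

/-- The numbers allowed at position `(i, j)`. -/
def Good (i j : ℕ) : Set ℕ :=
  {n : ℕ | ∀ l : ℕ, l < i → ∀ k : ℕ, k < j →
    (n : ℤ) ≠ (q i k : ℤ) + (q l j : ℤ) - (q l k : ℤ)}

lemma q_eq (i j : ℕ) : q i j = sInf (Good i j) := by
  rw [q]; rfl

lemma good_nonempty (i j : ℕ) : (Good i j).Nonempty := by
  have hfin : (Set.image2 (fun l k => ((q i k : ℤ) + (q l j : ℤ) - (q l k : ℤ)).toNat)
      (Set.Iio i) (Set.Iio j)).Finite :=
    Set.Finite.image2 _ (Set.finite_Iio i) (Set.finite_Iio j)
  obtain ⟨n, hn⟩ := hfin.infinite_compl.nonempty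
  refine ⟨n, fun l hl k hk h => hn ?_⟩
  refine ⟨l, hl, k, hk, ?_⟩
  simp only
  rw [← h]; simp

lemma q_mem (i j : ℕ) : q i j ∈ Good i j := by
  rw [q_eq]; exact Nat.sInf_mem (good_nonempty i j)

lemma q_min {i j n : ℕ} (h : n < q i j) :
    ∃ l, l < i ∧ ∃ k, k < j ∧ (n : ℤ) = (q i k : ℤ) + (q l j : ℤ) - (q l k : ℤ) := by
  rw [q_eq] at h
  have := Nat.notMem_of_lt_sInf h
  unfold Good at this
  simp only [Set.mem_setOf_eq, not_forall, not_not] at this
  obtain ⟨l, hl, k, hk, h⟩ := this
  exact ⟨l, hl, k, hk, h⟩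

lemma q_zero (j : ℕ) : q 0 j = 0 := by
  by_contra h
  obtain ⟨l, hl, _⟩ := q_min (Nat.pos_of_ne_zero h)
  omega

/-- differences of two rows are injective -/
lemma diff_inj {l i : ℕ} (hli : l < i) {j k : ℕ}
    (h : (q i j : ℤ) - q l j = (q i k : ℤ) - q l k) : j = k := by
  rcases lt_trichotomy j k with hjk | hjk | hjk
  · exact absurd (by linarith) (q_mem i k l hli j hjk)
  · exact hjk
  · exact absurd (by linarith) (q_mem i j l hli k hjk)

lemma row_inj {i : ℕ} (hi : 0 < i) : Function.Injective (q i) := by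
  intro j k h
  apply diff_inj hi
  rw [q_zero, q_zero, h]

lemma q_one (j : ℕ) : q 1 j = j := by
  induction j using Nat.strong_induction_on with
  | _ j ih =>
    apply le_antisymm
    · by_contra hlt
      push Not at hlt
      obtain ⟨l, hl, k, hk, h⟩ := q_min hlt
      obtain rfl : l = 0 := by omega
      rw [q_zero, q_zero, ih k hk] at h
      omega
    · by_contra hlt
      push Not at hlt
      have := ih _ hlt
      have h2 := row_inj (i := 1) one_pos this
      omega

/-- If infinitely many columns `j` are records in all of the rows `1, …, i - 1`, then row `i` is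
onto. -/
lemma criterion {i : ℕ} (hi : 0 < i)
    (hrec : {j : ℕ | ∀ l, 0 < l → l < i → ∀ k < j, q l k < q l j}.Infinite) :
    Function.Surjective (q i) := by
  intro v
  by_contra hv
  push Not at hv
  have hfin1 : {j : ℕ | q i j < v}.Finite :=
    (Set.finite_Iio v).preimage (row_inj hi).injOn
  have hfin2 : (⋃ l ∈ Set.Ico 1 i, ⋃ k ∈ {k : ℕ | q i k < v},
      {j : ℕ | (q l j : ℤ) = v - q i k + q l k}).Finite := by
    refine (Set.finite_Ico 1 i).biUnion fun l hl => hfin1.biUnion fun k _ => ?_
    apply Set.Subsingleton.finite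
    intro a ha b hb
    simp only [Set.mem_setOf_eq] at ha hb
    apply row_inj (i := l) hl.1
    have : (q l a : ℤ) = q l b := by rw [ha, hb]
    exact_mod_cast this
  obtain ⟨j, hj, hjn⟩ := (hrec.diff (hfin1.union hfin2)).nonempty
  rw [Set.mem_union, not_or] at hjn
  have h1 : v < q i j := by
    have h2 := hv j
    have h3 := hjn.1
    simp only [Set.mem_setOf_eq, not_lt] at h3
    omega
  obtain ⟨l, hl, k, hk, h⟩ := q_min h1
  rcases Nat.eq_zero_or_pos l with rfl | hl0
  · rw [q_zero, q_zero] at h
    apply hv k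
    omega
  · have h4 := hj l hl0 hl k hk
    apply hjn.2
    simp only [Set.mem_iUnion, Set.mem_setOf_eq, Set.mem_Ico, exists_prop]
    refine ⟨l, ⟨hl0, hl⟩, k, ?_, ?_⟩ <;> omega

/-- an injective sequence of naturals has infinitely many records -/
lemma records {f : ℕ → ℕ} (hf : Function.Injective f) :
    {j : ℕ | ∀ k < j, f k < f j}.Infinite := by
  rw [Set.infinite_iff_exists_gt]
  intro a
  -- some value above all of `f 0, …, f a`
  obtain ⟨M, hM⟩ : ∃ M, ∀ k ≤ a, f k < M := by
    refine ⟨(Finset.range (a + 1)).sup f + 1, fun k hk => ?_⟩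
    have : f k ≤ (Finset.range (a + 1)).sup f :=
      Finset.le_sup (f := f) (Finset.mem_range.2 (by omega))
    omega
  have hex : ∃ j, M ≤ f j := by
    by_contra hno
    push Not at hno
    have hfin : (Set.univ : Set ℕ).Finite :=
      ((Set.finite_Iio M).preimage hf.injOn).subset (fun j _ => hno j)
    exact Set.infinite_univ hfin
  classical
  refine ⟨Nat.find hex, fun k hk => ?_, ?_⟩
  · have := Nat.find_min hex hk
    have h2 := Nat.find_spec hex
    omega
  · by_contra hle
    push Not at hle
    have h2 := Nat.find_spec hex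
    have := hM _ hle
    omega

/-- Row `3` of the matrix is a permutation of the natural numbers. -/
theorem result : Function.Bijective (q 3) := by
  refine ⟨row_inj (by norm_num), criterion (by norm_num) ?_⟩
  refine (records (row_inj (i := 2) (by norm_num))).mono ?_
  intro j hj l hl0 hl3 k hk
  obtain rfl | rfl : l = 1 ∨ l = 2 := by omega
  · rw [q_one, q_one]; exact hk
  · exact hj k hk

end Pool.Agent.Results.MP_e4e265_co.RowThree
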